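import Pool.Agent.H529.E.Gap44

/-!
# Frequent gaps between consecutive primes among the differences of 257 integers, from `DHL[44,2]`

Call `d` a frequent gap if for every `ε > 0` there are arbitrarily large `x` with at least `x ^ (1 - ε)`
primes `p_n ≤ x` such that `p_{n+1} - p_n = d`. From `H : Dhl44Count`: one of the differences of any 257
integers is a frequent gap, in every finite set of `n` integers at least `n (n - 256) / 512` pairs have this
property, one of the differences of every admissible 44-tuple and one of the multiples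
`2N, 4N, ..., 210N` of every even number `2N` is a frequent gap.
(The classes are avoided in the order 2, 5, 3, 37, 7, 31, 41, 43, 29, 19, 11, 13, 17, 23, which is optimal for
the rounding: `257, 129, 104, 70, 69, 60, 59, 58, 57, 56, 54, 50, 47, 45, 44`.)
-/

set_option autoImplicit false

open Finset Filter

namespace Pool.Agent.H339.FP

open Pool.Agent.H529.F (Dhl44Count)
open Pool.Agent.H529.E

/-- avoiding one class modulo each prime `≤ 43` costs at most `257 → 44` -/
theorem admissible_subset257 (S : Finset ℤ) (hS : 257 ≤ S.card) :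
    ∃ T ⊆ S, T.card = 44 ∧ ∀ p : ℕ, p.Prime → ∃ c : ℤ, ∀ s ∈ T, ¬ (p : ℤ) ∣ s - c := by
  classical
  obtain ⟨S1, s1, ⟨c1, hc1⟩, k1⟩ := remove_class 2 (by norm_num) S
  obtain ⟨S2, s2, ⟨c2, hc2⟩, k2⟩ := remove_class 5 (by norm_num) S1
  obtain ⟨S3, s3, ⟨c3, hc3⟩, k3⟩ := remove_class 3 (by norm_num) S2
  obtain ⟨S4, s4, ⟨c4, hc4⟩, k4⟩ := remove_class 37 (by norm_num) S3
  obtain ⟨S5, s5, ⟨c5, hc5⟩, k5⟩ := remove_class 7 (by norm_num) S4
  obtain ⟨S6, s6, ⟨c6, hc6⟩, k6⟩ := remove_class 31 (by norm_num) S5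
  obtain ⟨S7, s7, ⟨c7, hc7⟩, k7⟩ := remove_class 41 (by norm_num) S6
  obtain ⟨S8, s8, ⟨c8, hc8⟩, k8⟩ := remove_class 43 (by norm_num) S7
  obtain ⟨S9, s9, ⟨c9, hc9⟩, k9⟩ := remove_class 29 (by norm_num) S8
  obtain ⟨S10, s10, ⟨c10, hc10⟩, k10⟩ := remove_class 19 (by norm_num) S9
  obtain ⟨S11, s11, ⟨c11, hc11⟩, k11⟩ := remove_class 11 (by norm_num) S10
  obtain ⟨S12, s12, ⟨c12, hc12⟩, k12⟩ := remove_class 13 (by norm_num) S11
  obtain ⟨S13, s13, ⟨c13, hc13⟩, k13⟩ := remove_class 17 (by norm_num) S12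
  obtain ⟨S14, s14, ⟨c14, hc14⟩, k14⟩ := remove_class 23 (by norm_num) S13
  have h1 : 129 ≤ S1.card := by omega
  have h2 : 104 ≤ S2.card := by omega
  have h3 : 70 ≤ S3.card := by omega
  have h4 : 69 ≤ S4.card := by omega
  have h5 : 60 ≤ S5.card := by omega
  have h6 : 59 ≤ S6.card := by omega
  have h7 : 58 ≤ S7.card := by omega
  have h8 : 57 ≤ S8.card := by omega
  have h9 : 56 ≤ S9.card := by omega
  have h10 : 54 ≤ S10.card := by omega
  have h11 : 50 ≤ S11.card := by omega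
  have h12 : 47 ≤ S12.card := by omega
  have h13 : 45 ≤ S13.card := by omega
  have h14 : 44 ≤ S14.card := by omega
  obtain ⟨T, hT, hTc⟩ := Finset.exists_subset_card_eq h14
  have t14 := hT
  have t13 := t14.trans s14
  have t12 := t13.trans s13
  have t11 := t12.trans s12
  have t10 := t11.trans s11
  have t9 := t10.trans s10
  have t8 := t9.trans s9
  have t7 := t8.trans s8
  have t6 := t7.trans s7
  have t5 := t6.trans s6
  have t4 := t5.trans s5
  have t3 := t4.trans s4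
  have t2 := t3.trans s3
  have t1 := t2.trans s2
  refine ⟨T, t1.trans s1, hTc, fun p hp => ?_⟩
  by_cases hbig : 44 < p
  · -- a class is missed
    have hp0 : (p : ℤ) ≠ 0 := by exact_mod_cast hp.ne_zero
    have hcard : (T.image (fun s : ℤ => (s % p).toNat)).card < (Finset.range p).card := by
      rw [Finset.card_range]
      exact lt_of_le_of_lt Finset.card_image_le (by omega)
    obtain ⟨c, hc, hcn⟩ := Finset.exists_mem_notMem_of_card_lt_card hcard
    refine ⟨c, fun s hs hd => hcn ?_⟩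
    rw [Finset.mem_image]
    refine ⟨s, hs, ?_⟩
    have h3 : s % p = (c : ℤ) % p := Int.ModEq.symm ((Int.modEq_iff_dvd).mpr hd)
    rw [h3, Int.emod_eq_of_lt (by positivity) (by exact_mod_cast Finset.mem_range.mp hc)]
    simp
  · have hp44 : p ≤ 44 := by omega
    interval_cases p <;> first
      | exact ⟨c1, fun s hs => hc1 s (t1 hs)⟩
      | exact ⟨c3, fun s hs => hc3 s (t3 hs)⟩
      | exact ⟨c2, fun s hs => hc2 s (t2 hs)⟩
      | exact ⟨c5, fun s hs => hc5 s (t5 hs)⟩
      | exact ⟨c11, fun s hs => hc11 s (t11 hs)⟩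
      | exact ⟨c12, fun s hs => hc12 s (t12 hs)⟩
      | exact ⟨c13, fun s hs => hc13 s (t13 hs)⟩
      | exact ⟨c10, fun s hs => hc10 s (t10 hs)⟩
      | exact ⟨c14, fun s hs => hc14 s (t14 hs)⟩
      | exact ⟨c9, fun s hs => hc9 s (t9 hs)⟩
      | exact ⟨c6, fun s hs => hc6 s (t6 hs)⟩
      | exact ⟨c4, fun s hs => hc4 s (t4 hs)⟩
      | exact ⟨c7, fun s hs => hc7 s (t7 hs)⟩
      | exact ⟨c8, fun s hs => hc8 s (t8 hs)⟩
      | (exfalso; revert hp; norm_num)

/-- One of the differences of 257 integers is a gap with the count `x ^ (1 - ε)`. -/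
theorem difference_gap257 (H : Dhl44Count) (S : Finset ℤ) (hS : 257 ≤ S.card) :
    ∃ a ∈ S, ∃ b ∈ S, a < b ∧ ∀ ε : ℝ, 0 < ε → ∃ᶠ x : ℝ in atTop,
      x ^ (1 - ε) ≤ ((gapSet (b - a) x).ncard : ℝ) := by
  obtain ⟨T, hTS, hT, hc⟩ := admissible_subset257 S hS
  set f := T.orderEmbOfFin hT with hf
  have hmem : ∀ i, f i ∈ T := fun i => Finset.orderEmbOfFin_mem T hT i
  obtain ⟨i, j, hij, h⟩ := gap_of_admissible H (fun i => f i) f.injective (by
    intro p hp
    obtain ⟨c, hc'⟩ := hc p hp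
    refine ⟨-c, fun i hd => hc' _ (hmem i) ?_⟩
    rwa [neg_add_eq_sub] at hd)
  exact ⟨f i, hTS (hmem i), f j, hTS (hmem j), hij, h⟩

/-- For every `ε > 0` there are arbitrarily large `x` such that the gap between the prime `p_n` (with index
`n = 0, 1, ...`) and the next prime is equal to `d` for at least `x ^ (1 - ε)` primes `p_n ≤ x`. -/
def FrequentGap (d : ℤ) : Prop :=
  ∀ ε : ℝ, 0 < ε → ∃ᶠ x : ℝ in atTop, x ^ (1 - ε) ≤ ({n : ℕ | (Nat.nth Nat.Prime n : ℝ) ≤ x ∧
    (Nat.nth Nat.Prime (n + 1) : ℤ) - Nat.nth Nat.Prime n = d}.ncard : ℝ)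

theorem of_gap {d : ℤ} (h : ∀ ε : ℝ, 0 < ε → ∃ᶠ x : ℝ in atTop,
    x ^ (1 - ε) ≤ ((gapSet d x).ncard : ℝ)) : FrequentGap d := h

theorem exists_257 (H : Dhl44Count) (S : Finset ℤ) (hS : 257 ≤ S.card) :
    ∃ a ∈ S, ∃ b ∈ S, a < b ∧ FrequentGap (b - a) := by
  obtain ⟨a, ha, b, hb, hab, h⟩ := difference_gap257 H S hS
  exact ⟨a, ha, b, hb, hab, of_gap h⟩

open Classical in
/-- the pairs of elements of `S` whose difference is a frequent gap -/
noncomputable def goodPairs (S : Finset ℤ) : Finset (ℤ × ℤ) :=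
  (S ×ˢ S).filter fun p => p.1 < p.2 ∧ FrequentGap (p.2 - p.1)

/-- the graph of the pairs whose difference is not a frequent gap -/
def badGraph (S : Finset ℤ) : SimpleGraph S where
  Adj a b := a ≠ b ∧ ¬ FrequentGap (max (a : ℤ) b - min (a : ℤ) b)
  symm := ⟨fun a b h => ⟨h.1.symm, by rw [max_comm, min_comm]; exact h.2⟩⟩
  loopless := ⟨fun a h => h.1 rfl⟩

theorem badGraph_cliqueFree (H : Dhl44Count) (S : Finset ℤ) : (badGraph S).CliqueFree (256 + 1) := by
  classical
  intro T hT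
  rw [SimpleGraph.isNClique_iff, SimpleGraph.isClique_iff] at hT
  obtain ⟨a, ha, b, hb, hab, h⟩ := exists_257 H (T.map (Function.Embedding.subtype _)) (by
    rw [card_map]; exact hT.2.ge)
  rw [Finset.mem_map] at ha hb
  obtain ⟨a', ha', rfl⟩ := ha
  obtain ⟨b', hb', rfl⟩ := hb
  have hab' : (a' : ℤ) < b' := hab
  have hne : a' ≠ b' := by
    rintro rfl
    exact lt_irrefl _ hab'
  have h2 := hT.1 (mem_coe.2 ha') (mem_coe.2 hb') hne
  apply h2.2
  rw [max_eq_right hab'.le, min_eq_left hab'.le]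
  exact h

open Classical in
theorem edges_le (hD : Dhl44Count) (S : Finset ℤ) :
    2 * 256 * (badGraph S).edgeFinset.card ≤ 255 * S.card ^ 2 := by
  obtain ⟨H, _, maxH⟩ := SimpleGraph.exists_isTuranMaximal (V := S) (r := 256) (by norm_num)
  have h1 : (badGraph S).edgeFinset.card ≤ H.edgeFinset.card := by
    have h5 := maxH.2 (badGraph_cliqueFree hD S)
    simp only [SimpleGraph.edgeFinset_card, ← Nat.card_eq_fintype_card] at h5 ⊢
    exact h5
  have h2 : H.edgeFinset.card = (SimpleGraph.turanGraph (Fintype.card S) 256).edgeFinset.card :=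
    ((SimpleGraph.isTuranMaximal_iff_nonempty_iso_turanGraph (by norm_num)).mp maxH).some.card_edgeFinset_eq
  have h3 := SimpleGraph.mul_card_edgeFinset_turanGraph_le (n := Fintype.card S) (r := 256)
  rw [Fintype.card_coe] at h2 h3
  calc 2 * 256 * (badGraph S).edgeFinset.card ≤ 2 * 256 * H.edgeFinset.card := by gcongr
    _ = 2 * 256 * (SimpleGraph.turanGraph S.card 256).edgeFinset.card := by rw [h2]
    _ ≤ 255 * S.card ^ 2 := h3

open Classical in
theorem bad_le (S : Finset ℤ) :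
    ((S ×ˢ S).filter fun p => p.1 < p.2 ∧ ¬ FrequentGap (p.2 - p.1)).card ≤
      (badGraph S).edgeFinset.card := by
  refine Finset.card_le_card_of_surjOn (fun e : Sym2 S =>
    (Sym2.lift ⟨fun a b : S => (min (a : ℤ) b, max (a : ℤ) b), fun a b => by
      show (min (a : ℤ) b, max (a : ℤ) b) = (min (b : ℤ) a, max (b : ℤ) a)
      rw [min_comm, max_comm]⟩ e)) ?_
  rintro ⟨a, b⟩ hab
  rw [mem_coe, mem_filter, mem_product] at hab
  obtain ⟨⟨ha, hb⟩, h1, h2⟩ := hab
  simp only at ha hb h1 h2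
  refine ⟨s(⟨a, ha⟩, ⟨b, hb⟩), ?_, ?_⟩
  · rw [mem_coe, SimpleGraph.mem_edgeFinset, SimpleGraph.mem_edgeSet]
    refine ⟨fun h => h1.ne (congrArg Subtype.val h), ?_⟩
    rw [max_eq_right h1.le, min_eq_left h1.le]
    exact h2
  · simp only [Sym2.lift_mk, min_eq_left h1.le, max_eq_right h1.le]

theorem card_sq (S : Finset ℤ) :
    S.card ^ 2 = S.card + 2 * ((S ×ˢ S).filter fun p => p.1 < p.2).card := by
  classical
  have h1 : (S ×ˢ S).card = S.card ^ 2 := by rw [card_product, sq]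
  have h2 : (S ×ˢ S) = ((S ×ˢ S).filter fun p => p.1 < p.2) ∪
      (((S ×ˢ S).filter fun p => p.2 < p.1) ∪ S.diag) := by
    ext ⟨a, b⟩
    simp only [mem_product, mem_union, mem_filter, mem_diag]
    constructor
    · rintro ⟨ha, hb⟩
      rcases lt_trichotomy a b with h | h | h
      · exact Or.inl ⟨⟨ha, hb⟩, h⟩
      · exact Or.inr (Or.inr ⟨ha, h⟩)
      · exact Or.inr (Or.inl ⟨⟨ha, hb⟩, h⟩)
    · rintro (h | h | h)
      · exact h.1
      · exact h.1
      · exact ⟨h.1, h.2 ▸ h.1⟩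
  have h3 : ((S ×ˢ S).filter fun p => p.2 < p.1).card = ((S ×ˢ S).filter fun p => p.1 < p.2).card := by
    refine card_bij (fun p _ => (p.2, p.1)) ?_ ?_ ?_
    · rintro ⟨a, b⟩ h
      simp only [mem_filter, mem_product] at h ⊢
      exact ⟨⟨h.1.2, h.1.1⟩, h.2⟩
    · rintro ⟨a, b⟩ _ ⟨c, d⟩ _ h
      simp only [Prod.mk.injEq] at h ⊢
      exact ⟨h.2, h.1⟩
    · rintro ⟨a, b⟩ h
      simp only [mem_filter, mem_product] at h
      exact ⟨(b, a), by simp only [mem_filter, mem_product]; exact ⟨⟨h.1.2, h.1.1⟩, h.2⟩, rfl⟩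
  rw [← h1]
  conv_lhs => rw [h2]
  rw [card_union_of_disjoint, card_union_of_disjoint, h3, diag_card]
  · ring
  · rw [disjoint_left]
    rintro ⟨a, b⟩ h h'
    simp only [mem_filter, mem_diag] at h h'
    exact h.2.ne h'.2.symm
  · rw [disjoint_left]
    rintro ⟨a, b⟩ h h'
    simp only [mem_filter, mem_diag, mem_union] at h h'
    rcases h' with h' | h'
    · exact lt_asymm h.2 h'.2
    · exact h.2.ne h'.2

theorem main_count (H : Dhl44Count) (S : Finset ℤ) :
    S.card ^ 2 ≤ 256 * S.card + 512 * (goodPairs S).card := by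
  classical
  have h1 := card_sq S
  have h2 := edges_le H S
  have h3 := bad_le S
  have h4 : ((S ×ˢ S).filter fun p => p.1 < p.2).card =
      (goodPairs S).card + ((S ×ˢ S).filter fun p => p.1 < p.2 ∧ ¬ FrequentGap (p.2 - p.1)).card := by
    rw [← card_filter_add_card_filter_not (s := (S ×ˢ S).filter fun p => p.1 < p.2)
      (fun p => FrequentGap (p.2 - p.1)), filter_filter, filter_filter, goodPairs]
  nlinarith

/-- (1) For every finite set `S` of `n` integers at least `n (n - 256) / 512` pairs `a < b` of elements of `S`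
have the property that `b - a` is a frequent gap between consecutive primes. (2) In particular this holds
for at least one pair if `n ≥ 257`. (3) One of the differences of every admissible 44-tuple is a frequent gap.
(4) One of the multiples `2 N, 4 N, ..., 210 N` of every even number `2 N > 0` is a frequent gap. -/
theorem frequent44 (H : Dhl44Count) :
    (∀ S : Finset ℤ, ∃ P : Finset (ℤ × ℤ),
      (∀ p ∈ P, p.1 ∈ S ∧ p.2 ∈ S ∧ p.1 < p.2 ∧ FrequentGap (p.2 - p.1)) ∧
      (S.card : ℝ) * ((S.card : ℝ) - 256) / 512 ≤ P.card) ∧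
    (∀ S : Finset ℤ, 257 ≤ S.card → ∃ a ∈ S, ∃ b ∈ S, a < b ∧ FrequentGap (b - a)) ∧
    (∀ a : Fin 44 → ℤ, Function.Injective a →
      (∀ p : ℕ, p.Prime → ∃ r : ℤ, ∀ i, ¬ (p : ℤ) ∣ r + a i) →
      ∃ i j, a i < a j ∧ FrequentGap (a j - a i)) ∧
    (∀ N : ℕ, 0 < N → ∃ k : ℕ, 1 ≤ k ∧ k ≤ 105 ∧ FrequentGap ((k : ℤ) * (2 * N))) := by
  classical
  refine ⟨fun S => ⟨goodPairs S, ?_, ?_⟩, exists_257 H, ?_, ?_⟩
  · intro p hp
    rw [goodPairs, mem_filter, mem_product] at hp
    exact ⟨hp.1.1, hp.1.2, hp.2.1, hp.2.2⟩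
  · have h := main_count H S
    have h' : (S.card : ℝ) ^ 2 ≤ 256 * S.card + 512 * (goodPairs S).card := by exact_mod_cast h
    nlinarith
  · intro a ha hadm
    obtain ⟨i, j, hij, h⟩ := gap_of_admissible H a ha hadm
    exact ⟨i, j, hij, of_gap h⟩
  · intro N hN
    obtain ⟨k, h1, h2, h⟩ := multiple_gap H N hN
    exact ⟨k, h1, h2, of_gap h⟩

end Pool.Agent.H339.FP
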